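import Mathlib

/-!
# MP_d417b4_co: deletion of an edge and the mean subtree order, for graphs with no or few bridges

Q1 asks whether every connected graph `G` which is not a tree has an edge `e` such that `G \ e` is connected and
the mean subtree order satisfies `μ(G \ e) < μ(G)`. We prove this for all graphs without bridges and, more
generally, for all graphs for which the square of the number of bridges is at most four times the
variance of the order of a random subtree. For edge-transitive graphs all edges have this property, and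
there is an exact formula.

Let `T` be a random subtree of `G` (all subtrees are equally probable), `|T|` its order, `a(T)` the number of
its edges which are not bridges of `G`, and `b(T)` the number of its edges which are bridges, so that
`|T| = 1 + a(T) + b(T)`. The subtrees of `G \ e` are the subtrees of `G` without `e`. So the sum of
`N(G \ e) (μ(G) - μ(G \ e))` over the edges `e` which are not bridges is `N(G)` times the covariance of `|T|` and
`a(T)`, which is `(Var |T| + Var a(T) - Var b(T)) / 2`.
-/

set_option autoImplicit false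

namespace Pool.Agent.Results.MP_d417b4_co.BridgelessDeletionH27

open Finset

variable {V : Type} [Finite V]

open Classical in
/-- The subtrees of `G`: the subgraphs which are trees (not necessarily induced). -/
noncomputable def trees (G : SimpleGraph V) : Finset G.Subgraph :=
  (Set.toFinite {T : G.Subgraph | T.coe.IsTree}).toFinset

open Classical in
/-- The number of subtrees of `G` with exactly `k` vertices. -/
noncomputable def s (G : SimpleGraph V) (k : ℕ) : ℕ :=
  ((trees G).filter fun T => T.verts.ncard = k).card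

/-- The mean subtree order. -/
noncomputable def mu (G : SimpleGraph V) : ℝ :=
  (∑ k ∈ Icc 1 (Nat.card V), (k : ℝ) * s G k) / ∑ k ∈ Icc 1 (Nat.card V), (s G k : ℝ)

open Classical in
/-- The edges `e` of `G` such that `G \ e` is connected. -/
noncomputable def free (G : SimpleGraph V) : Finset (Sym2 V) :=
  (Set.toFinite {e : Sym2 V | e ∈ G.edgeSet ∧ (G.deleteEdges {e}).Connected}).toFinset

/-- The mean of a function on the subtrees of `G`. -/
noncomputable def mean (G : SimpleGraph V) (f : G.Subgraph → ℝ) : ℝ :=
  (∑ T ∈ trees G, f T) / (trees G).card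

/-- The variance of a function on the subtrees of `G`. -/
noncomputable def var (G : SimpleGraph V) (f : G.Subgraph → ℝ) : ℝ :=
  mean G fun T => (f T - mean G f) ^ 2

/-- The number of vertices of `T`. -/
noncomputable def order (G : SimpleGraph V) (T : G.Subgraph) : ℝ := T.verts.ncard

/-- The number of edges of `T` which are not bridges of `G`. -/
noncomputable def nonbridges (G : SimpleGraph V) (T : G.Subgraph) : ℝ :=
  (T.edgeSet ∩ (free G : Set (Sym2 V))).ncard

/-- The number of edges of `T` which are bridges of `G`. -/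
noncomputable def bridges (G : SimpleGraph V) (T : G.Subgraph) : ℝ :=
  (T.edgeSet \ (free G : Set (Sym2 V))).ncard

lemma mem_trees {G : SimpleGraph V} {T : G.Subgraph} : T ∈ trees G ↔ T.coe.IsTree := by
  simp [trees]

lemma mem_free {G : SimpleGraph V} {e : Sym2 V} :
    e ∈ free G ↔ e ∈ G.edgeSet ∧ (G.deleteEdges {e}).Connected := by
  simp [free]

lemma order_mem {G : SimpleGraph V} {T : G.Subgraph} (hT : T ∈ trees G) :
    T.verts.ncard ∈ Icc 1 (Nat.card V) := by
  rw [mem_trees] at hT
  have h1 : Nonempty T.verts := hT.connected.nonempty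
  rw [mem_Icc]
  refine ⟨?_, ?_⟩
  · rw [Nat.succ_le_iff, Set.ncard_pos]
    exact Set.nonempty_coe_sort.1 h1
  · rw [← Set.ncard_univ]
    exact Set.ncard_le_ncard (Set.subset_univ _)

lemma mu_eq (G : SimpleGraph V) : mu G = mean G (order G) := by
  classical
  have h1 : ∀ g : ℕ → ℝ, ∑ k ∈ Icc 1 (Nat.card V), g k * s G k =
      ∑ T ∈ trees G, g T.verts.ncard := by
    intro g
    rw [← Finset.sum_fiberwise_of_maps_to (fun T hT => order_mem hT)]
    refine sum_congr rfl fun k _ => ?_
    rw [sum_congr rfl (g := fun _ => g k) (fun T hT => by rw [(mem_filter.1 hT).2]), sum_const,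
      nsmul_eq_mul, mul_comm]
    rfl
  have h2 := h1 (fun k => (k : ℝ))
  have h3 := h1 (fun _ => 1)
  simp only [one_mul, sum_const, nsmul_eq_mul, mul_one] at h3
  unfold mu mean order
  rw [h2, h3]

/-- A subgraph of `G \ e` as a subgraph of `G`. -/
def up {G : SimpleGraph V} (e : Sym2 V) (T : (G.deleteEdges {e}).Subgraph) : G.Subgraph where
  verts := T.verts
  Adj := T.Adj
  adj_sub h := ((SimpleGraph.deleteEdges_adj).1 (T.adj_sub h)).1
  edge_vert h := T.edge_vert h
  symm := T.symm

/-- A subgraph of `G` without the edge `e` as a subgraph of `G \ e`. -/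
def down {G : SimpleGraph V} (e : Sym2 V) (T : G.Subgraph) (h : e ∉ T.edgeSet) :
    (G.deleteEdges {e}).Subgraph where
  verts := T.verts
  Adj := T.Adj
  adj_sub {v w} h1 := (SimpleGraph.deleteEdges_adj).2 ⟨T.adj_sub h1, fun h2 => h (by
    rw [Set.mem_singleton_iff] at h2
    rw [← h2]
    exact h1)⟩
  edge_vert h := T.edge_vert h
  symm := T.symm

open Classical in
lemma transfer (G : SimpleGraph V) (e : Sym2 V) (g : ℕ → ℝ) :
    ∑ T ∈ trees (G.deleteEdges {e}), g T.verts.ncard =
      ∑ T ∈ (trees G).filter (fun T => e ∉ T.edgeSet), g T.verts.ncard := by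
  refine sum_bij (fun T _ => up e T) ?_ ?_ ?_ ?_
  · intro T hT
    rw [mem_filter, mem_trees]
    refine ⟨show T.coe.IsTree from mem_trees.1 hT, fun h => ?_⟩
    have h1 : e ∈ T.edgeSet := h
    have h2 := T.edgeSet_subset h1
    rw [SimpleGraph.edgeSet_deleteEdges] at h2
    exact h2.2 rfl
  · intro T _ T' _ h
    have h1 : (up e T).verts = (up e T').verts := by rw [h]
    have h2 : (up e T).Adj = (up e T').Adj := by rw [h]
    exact SimpleGraph.Subgraph.ext h1 h2
  · intro T hT
    rw [mem_filter, mem_trees] at hT
    exact ⟨down e T hT.2, mem_trees.2 hT.1, rfl⟩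
  · intro T _
    rfl

lemma exists_single (G : SimpleGraph V) (v : V) : G.singletonSubgraph v ∈ trees G :=
  mem_trees.2 (SimpleGraph.IsTree.coe_singletonSubgraph G v)

/-- the number of vertices is one more than the number of edges -/
lemma order_eq {G : SimpleGraph V} {T : G.Subgraph} (hT : T ∈ trees G) :
    order G T = 1 + nonbridges G T + bridges G T := by
  classical
  have := Fintype.ofFinite V
  rw [mem_trees] at hT
  have h1 := hT.card_edgeFinset
  have h2 : T.edgeSet.ncard = T.coe.edgeFinset.card := by
    rw [← T.image_coe_edgeSet_coe, Set.ncard_image_of_injective _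
      (Sym2.map.injective Subtype.val_injective), ← SimpleGraph.coe_edgeFinset,
      Set.ncard_coe_finset]
  have h3 : T.verts.ncard = Fintype.card T.verts := by
    rw [← Nat.card_coe_set_eq, Nat.card_eq_fintype_card]
  have h4 := Set.ncard_inter_add_ncard_sdiff_eq_ncard T.edgeSet (free G : Set (Sym2 V))
    (Set.toFinite _)
  unfold order nonbridges bridges
  have h5 : T.verts.ncard = 1 + (T.edgeSet ∩ (free G : Set (Sym2 V))).ncard +
      (T.edgeSet \ (free G : Set (Sym2 V))).ncard := by omega
  rw [h5]
  push_cast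
  ring

lemma cardT_pos {G : SimpleGraph V} (hG : G.Connected) : (0 : ℝ) < (trees G).card := by
  obtain ⟨v⟩ := hG.nonempty
  exact_mod_cast Finset.card_pos.2 ⟨_, exists_single G v⟩

lemma sum_mean {G : SimpleGraph V} (hG : G.Connected) (f : G.Subgraph → ℝ) :
    ∑ T ∈ trees G, f T = (trees G).card * mean G f := by
  unfold mean
  rw [mul_div_cancel₀ _ (cardT_pos hG).ne']

lemma sum_sub {G : SimpleGraph V} (hG : G.Connected) (f : G.Subgraph → ℝ) :
    ∑ T ∈ trees G, (f T - mean G f) = 0 := by
  rw [sum_sub_distrib, sum_mean hG, sum_const, nsmul_eq_mul, sub_self]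

open Classical in
lemma nonbridges_eq (G : SimpleGraph V) (T : G.Subgraph) :
    nonbridges G T = ((free G).filter fun e => e ∈ T.edgeSet).card := by
  unfold nonbridges
  rw [← Set.ncard_coe_finset]
  congr 2
  ext e
  simp [and_comm]

/-- one deletion -/
lemma one_edge {G : SimpleGraph V} {e : Sym2 V} (he : e ∈ free G) (m : ℝ) :
    ((trees (G.deleteEdges {e})).card : ℝ) * (m - mu (G.deleteEdges {e})) =
      open Classical in ∑ T ∈ trees G, if e ∉ T.edgeSet then m - order G T else 0 := by
  classical
  rw [mul_sub, mu_eq, ← sum_mean (mem_free.1 he).2, ← sum_filter, sum_sub_distrib]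
  have h1 := transfer G e (fun _ => m)
  have h2 := transfer G e (fun k => (k : ℝ))
  rw [sum_const, nsmul_eq_mul] at h1
  rw [h1]
  congr 1

/-- all deletions -/
lemma key {G : SimpleGraph V} (hG : G.Connected) :
    ∑ e ∈ free G, ((trees (G.deleteEdges {e})).card : ℝ) * (mu G - mu (G.deleteEdges {e})) =
      ∑ T ∈ trees G, (order G T - mu G) * nonbridges G T := by
  classical
  rw [sum_congr rfl fun e he => one_edge he (mu G), sum_comm]
  have h1 : ∀ T ∈ trees G, (∑ e ∈ free G, if e ∉ T.edgeSet then mu G - order G T else 0) =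
      (order G T - mu G) * nonbridges G T - (order G T - mu G) * (free G).card := by
    intro T _
    rw [← sum_filter, sum_const, nsmul_eq_mul, nonbridges_eq]
    have h2 := card_filter_add_card_filter_not (s := free G) (fun e => e ∈ T.edgeSet)
    have h3 : (((free G).filter fun e => e ∈ T.edgeSet).card : ℝ) +
        ((free G).filter fun e => e ∉ T.edgeSet).card = (free G).card := by exact_mod_cast h2
    rw [← h3]
    ring
  rw [sum_congr rfl h1, sum_sub_distrib, ← sum_mul, mu_eq, sum_sub hG, zero_mul, sub_zero]

/-- the number of pairs of an edge and a subtree without it -/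
lemma key_card {G : SimpleGraph V} (hG : G.Connected) :
    ∑ e ∈ free G, ((trees (G.deleteEdges {e})).card : ℝ) =
      (trees G).card * ((free G).card - mean G (nonbridges G)) := by
  classical
  have h0 : ∀ e ∈ free G, ((trees (G.deleteEdges {e})).card : ℝ) =
      ∑ T ∈ trees G, if e ∉ T.edgeSet then (1 : ℝ) else 0 := by
    intro e _
    have h1 := transfer G e (fun _ => (1 : ℝ))
    rw [sum_const, nsmul_eq_mul, mul_one] at h1
    rw [h1, sum_filter]
  rw [sum_congr rfl h0, sum_comm]
  have h1 : ∀ T ∈ trees G, (∑ e ∈ free G, if e ∉ T.edgeSet then (1 : ℝ) else 0) =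
      (free G).card - nonbridges G T := by
    intro T _
    rw [← sum_filter, sum_const, nsmul_eq_mul, nonbridges_eq, mul_one]
    have h2 := card_filter_add_card_filter_not (s := free G) (fun e => e ∈ T.edgeSet)
    have h3 : (((free G).filter fun e => e ∈ T.edgeSet).card : ℝ) +
        ((free G).filter fun e => e ∉ T.edgeSet).card = (free G).card := by exact_mod_cast h2
    rw [← h3]
    ring
  rw [sum_congr rfl h1, sum_sub_distrib, sum_mean hG (nonbridges G), sum_const, nsmul_eq_mul]
  ring

/-- the covariance of the order and of the number of the edges which are not bridges -/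
lemma cov {G : SimpleGraph V} (hG : G.Connected) :
    ∑ T ∈ trees G, (order G T - mu G) * nonbridges G T = (trees G).card *
      ((var G (order G) + var G (nonbridges G) - var G (bridges G)) / 2) := by
  have hN := cardT_pos hG
  have hm : mean G (order G) = 1 + mean G (nonbridges G) + mean G (bridges G) := by
    unfold mean
    rw [sum_congr rfl fun T hT => order_eq hT, sum_add_distrib, sum_add_distrib, sum_const,
      nsmul_eq_mul, mul_one]
    field_simp
  have h1 : ∀ f : G.Subgraph → ℝ, (trees G).card * var G f =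
      ∑ T ∈ trees G, (f T - mean G f) ^ 2 := fun f => by
    unfold var
    rw [← sum_mean hG]
  have h2 : ∑ T ∈ trees G, (order G T - mu G) * nonbridges G T =
      ∑ T ∈ trees G, (order G T - mean G (order G)) *
        (nonbridges G T - mean G (nonbridges G)) := by
    have h3 : ∑ T ∈ trees G, (order G T - mean G (order G)) * mean G (nonbridges G) = 0 := by
      rw [← sum_mul, sum_sub hG, zero_mul]
    rw [mu_eq]
    calc ∑ T ∈ trees G, (order G T - mean G (order G)) * nonbridges G T
        = ∑ T ∈ trees G, (order G T - mean G (order G)) * nonbridges G T -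
          ∑ T ∈ trees G, (order G T - mean G (order G)) * mean G (nonbridges G) := by
            rw [h3, sub_zero]
      _ = _ := by
            rw [← sum_sub_distrib]
            exact sum_congr rfl fun T _ => by ring
  rw [h2]
  have h4 : (trees G).card *
      ((var G (order G) + var G (nonbridges G) - var G (bridges G)) / 2) =
      ((trees G).card * var G (order G) + (trees G).card * var G (nonbridges G) -
        (trees G).card * var G (bridges G)) / 2 := by ring
  rw [h4, h1, h1, h1, ← sum_add_distrib, ← sum_sub_distrib, sum_div]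
  refine sum_congr rfl fun T hT => ?_
  have h5 := order_eq hT
  have h6 : bridges G T - mean G (bridges G) = (order G T - mean G (order G)) -
      (nonbridges G T - mean G (nonbridges G)) := by
    rw [h5, hm]
    ring
  rw [h6]
  ring

/-- If the variance criterion holds there is a good edge. -/
lemma criterion {G : SimpleGraph V} (hG : G.Connected)
    (h : var G (bridges G) < var G (order G) + var G (nonbridges G)) : ∃ e ∈ free G,
      (var G (order G) + var G (nonbridges G) - var G (bridges G)) / 2 ≤
        ((free G).card - mean G (nonbridges G)) * (mu G - mu (G.deleteEdges {e})) ∧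
      mu (G.deleteEdges {e}) < mu G := by
  set D := (var G (order G) + var G (nonbridges G) - var G (bridges G)) / 2 with hD
  set A := ((free G).card : ℝ) - mean G (nonbridges G) with hA
  have hD0 : 0 < D := by rw [hD]; linarith
  have hN := cardT_pos hG
  have h1 := (key hG).trans (cov hG)
  have h2 := key_card hG
  rw [← hD] at h1
  rw [← hA] at h2
  have hpos : ∀ e ∈ free G, (0 : ℝ) < (trees (G.deleteEdges {e})).card := fun e he =>
    cardT_pos (mem_free.1 he).2
  have hne : (free G).Nonempty := by
    by_contra hcon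
    rw [not_nonempty_iff_eq_empty] at hcon
    rw [hcon, sum_empty] at h1
    have := mul_pos hN hD0
    linarith
  have hA0 : 0 < A := by
    have h3 : 0 < ∑ e ∈ free G, ((trees (G.deleteEdges {e})).card : ℝ) := sum_pos hpos hne
    rw [h2] at h3
    exact (mul_pos_iff_of_pos_left hN).1 h3
  have h4 : ∃ e ∈ free G, D ≤ A * (mu G - mu (G.deleteEdges {e})) := by
    by_contra hcon
    push Not at hcon
    have h5 : ∑ e ∈ free G, ((trees (G.deleteEdges {e})).card : ℝ) *
        (A * (mu G - mu (G.deleteEdges {e}))) <
        ∑ e ∈ free G, ((trees (G.deleteEdges {e})).card : ℝ) * D :=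
      sum_lt_sum_of_nonempty hne fun e he => mul_lt_mul_of_pos_left (hcon e he) (hpos e he)
    have h6 : ∑ e ∈ free G, ((trees (G.deleteEdges {e})).card : ℝ) *
        (A * (mu G - mu (G.deleteEdges {e}))) = A * ((trees G).card * D) := by
      rw [← h1, mul_sum]
      exact sum_congr rfl fun e _ => by ring
    rw [h6, ← sum_mul, h2] at h5
    nlinarith
  obtain ⟨e, he, h5⟩ := h4
  refine ⟨e, he, h5, ?_⟩
  have h6 : 0 < A * (mu G - mu (G.deleteEdges {e})) := hD0.trans_le h5
  have h7 := (mul_pos_iff_of_pos_left hA0).1 h6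
  linarith

/-- A connected graph which is not a tree has an edge which is not a bridge. -/
lemma free_nonempty {G : SimpleGraph V} (hG : G.Connected) (hT : ¬ G.IsTree) :
    (free G).Nonempty := by
  rw [SimpleGraph.isTree_iff_minimal_connected] at hT
  unfold Minimal at hT
  push Not at hT
  obtain ⟨H, h1, h2, h3⟩ := hT hG
  have h4 : ∃ v w, G.Adj v w ∧ ¬ H.Adj v w := by
    by_contra hcon
    push Not at hcon
    exact h3 fun v w h => hcon v w h
  obtain ⟨v, w, h5, h6⟩ := h4
  refine ⟨s(v, w), mem_free.2 ⟨h5, h1.mono fun a b h7 => ?_⟩⟩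
  rw [SimpleGraph.deleteEdges_adj]
  refine ⟨h2 h7, fun h8 => h6 ?_⟩
  rw [Set.mem_singleton_iff] at h8
  have : s(a, b) ∈ H.edgeSet := h7
  rw [h8] at this
  exact this

lemma var_nonneg {G : SimpleGraph V} (f : G.Subgraph → ℝ) : 0 ≤ var G f := by
  unfold var mean
  positivity

lemma var_pos {G : SimpleGraph V} (hG : G.Connected) (f : G.Subgraph → ℝ) {T T' : G.Subgraph}
    (hT : T ∈ trees G) (hT' : T' ∈ trees G) (h : f T ≠ f T') : 0 < var G f := by
  have hN := cardT_pos hG
  have h1 : 0 < ∑ T ∈ trees G, (f T - mean G f) ^ 2 := by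
    by_contra hcon
    have h2 : ∑ T ∈ trees G, (f T - mean G f) ^ 2 = 0 :=
      le_antisymm (not_lt.1 hcon) (sum_nonneg fun _ _ => sq_nonneg _)
    rw [sum_eq_zero_iff_of_nonneg fun _ _ => sq_nonneg _] at h2
    have h3 := pow_eq_zero_iff (two_ne_zero) |>.1 (h2 T hT)
    have h4 := pow_eq_zero_iff (two_ne_zero) |>.1 (h2 T' hT')
    exact h (by linarith)
  unfold var
  change 0 < (∑ T ∈ trees G, (f T - mean G f) ^ 2) / (trees G).card
  positivity

/-- the variance of the number of bridges -/
lemma var_bridges_le {G : SimpleGraph V} (hG : G.Connected) :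
    var G (bridges G) ≤ mean G (bridges G) *
      ((G.edgeSet \ (free G : Set (Sym2 V))).ncard - mean G (bridges G)) := by
  have hN := cardT_pos hG
  set B : ℝ := ((G.edgeSet \ (free G : Set (Sym2 V))).ncard : ℝ) with hB
  have h1 : ∀ T : G.Subgraph, 0 ≤ bridges G T ∧ bridges G T ≤ B := fun T => by
    refine ⟨by unfold bridges; positivity, ?_⟩
    unfold bridges
    rw [hB]
    exact_mod_cast Set.ncard_le_ncard (Set.sdiff_subset_sdiff_left T.edgeSet_subset) (Set.toFinite _)
  have h2 : (trees G).card * var G (bridges G) =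
      ∑ T ∈ trees G, (bridges G T - mean G (bridges G)) ^ 2 := by
    unfold var
    rw [← sum_mean hG]
  set M := mean G (bridges G) with hM
  have h3 : ∑ T ∈ trees G, (bridges G T - M) ^ 2 ≤ ∑ T ∈ trees G, ((B - 2 * M) * bridges G T + M ^ 2) :=
    sum_le_sum fun T _ => by
      have := h1 T
      nlinarith [mul_nonneg this.1 (sub_nonneg.2 this.2)]
  rw [sum_add_distrib, ← mul_sum, sum_mean hG (bridges G), ← hM, sum_const, nsmul_eq_mul] at h3
  have h4 : (trees G).card * var G (bridges G) ≤ (trees G).card * (M * (B - M)) := by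
    rw [h2]
    nlinarith
  exact le_of_mul_le_mul_left h4 hN

/-- the subgraph of `H` which corresponds to the subgraph `T` of `G` -/
def mv {G H : SimpleGraph V} (φ : G ≃g H) (T : G.Subgraph) : H.Subgraph where
  verts := {a | φ.symm a ∈ T.verts}
  Adj a b := T.Adj (φ.symm a) (φ.symm b)
  adj_sub h := φ.symm.map_adj_iff.1 (T.adj_sub h)
  edge_vert h := T.edge_vert h
  symm := ⟨fun _ _ h => T.symm.symm _ _ h⟩

/-- the isomorphism of `T` with its image -/
def mvIso {G H : SimpleGraph V} (φ : G ≃g H) (T : G.Subgraph) : T.coe ≃g (mv φ T).coe where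
  toFun v := ⟨φ v, by
    change φ.symm (φ v) ∈ T.verts
    rw [RelIso.symm_apply_apply]
    exact v.2⟩
  invFun a := ⟨φ.symm a, a.2⟩
  left_inv v := Subtype.ext (φ.symm_apply_apply v)
  right_inv a := Subtype.ext (φ.apply_symm_apply a)
  map_rel_iff' {v w} := by
    change T.Adj (φ.symm (φ v)) (φ.symm (φ w)) ↔ T.Adj v w
    rw [RelIso.symm_apply_apply, RelIso.symm_apply_apply]

omit [Finite V] in
lemma mv_mv {G H : SimpleGraph V} (φ : G ≃g H) (T : G.Subgraph) : mv φ.symm (mv φ T) = T := by
  apply SimpleGraph.Subgraph.ext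
  · ext v
    change φ.symm (φ.symm.symm v) ∈ T.verts ↔ v ∈ T.verts
    rw [show φ.symm.symm v = φ v from rfl, RelIso.symm_apply_apply]
  · funext v w
    change T.Adj (φ.symm (φ.symm.symm v)) (φ.symm (φ.symm.symm w)) = T.Adj v w
    rw [show φ.symm.symm v = φ v from rfl, show φ.symm.symm w = φ w from rfl,
      RelIso.symm_apply_apply, RelIso.symm_apply_apply]

lemma sum_iso {G H : SimpleGraph V} (φ : G ≃g H) (g : ℕ → ℝ) :
    ∑ T ∈ trees G, g T.verts.ncard = ∑ T ∈ trees H, g T.verts.ncard := by
  refine sum_nbij' (fun T => mv φ T) (fun T => mv φ.symm T) ?_ ?_ ?_ ?_ ?_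
  · intro T hT
    rw [mem_trees] at hT ⊢
    exact (mvIso φ T).isTree_iff.1 hT
  · intro T hT
    rw [mem_trees] at hT ⊢
    exact (mvIso φ.symm T).isTree_iff.1 hT
  · intro T _
    exact mv_mv φ T
  · intro T _
    exact mv_mv φ.symm T
  · intro T _
    congr 1
    rw [← Nat.card_coe_set_eq, ← Nat.card_coe_set_eq]
    exact Nat.card_congr (mvIso φ T).toEquiv

lemma card_iso {G H : SimpleGraph V} (φ : G ≃g H) :
    ((trees G).card : ℝ) = (trees H).card := by
  have h := sum_iso φ fun _ => 1
  simpa using h

lemma mu_iso {G H : SimpleGraph V} (φ : G ≃g H) : mu G = mu H := by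
  rw [mu_eq, mu_eq]
  unfold mean order
  rw [card_iso φ, sum_iso φ fun k => (k : ℝ)]

/-- an automorphism moves the deleted edge -/
def deleteIso {G : SimpleGraph V} (φ : G ≃g G) {e e' : Sym2 V} (h : e.map φ = e') :
    G.deleteEdges {e} ≃g G.deleteEdges {e'} where
  toEquiv := φ.toEquiv
  map_rel_iff' {v w} := by
    rw [SimpleGraph.deleteEdges_adj, SimpleGraph.deleteEdges_adj, ← h, Set.mem_singleton_iff,
      Set.mem_singleton_iff]
    change G.Adj (φ v) (φ w) ∧ ¬ s(φ v, φ w) = e.map φ ↔ _
    rw [φ.map_adj_iff, ← Sym2.map_mk, (Sym2.map.injective φ.injective).eq_iff]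

/-- edge-transitive graphs -/
lemma transitive {G : SimpleGraph V} (hG : G.Connected) (hT : ¬ G.IsTree)
    (ht : ∀ e ∈ G.edgeSet, ∀ e' ∈ G.edgeSet, ∃ φ : G ≃g G, e.map φ = e') :
    (∀ e ∈ G.edgeSet, (G.deleteEdges {e}).Connected) ∧
    ∀ e ∈ G.edgeSet, (free G).card * ((trees (G.deleteEdges {e})).card : ℝ) *
        (mu G - mu (G.deleteEdges {e})) =
      (trees G).card * ((var G (order G) + var G (nonbridges G) - var G (bridges G)) / 2) ∧
      (free G).card * ((trees (G.deleteEdges {e})).card : ℝ) =
        (trees G).card * ((free G).card - mean G (nonbridges G)) := by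
  obtain ⟨e₀, he₀⟩ := free_nonempty hG hT
  have h0 := mem_free.1 he₀
  have hall : ∀ e ∈ G.edgeSet, (G.deleteEdges {e}).Connected := fun e he => by
    obtain ⟨φ, hφ⟩ := ht e₀ h0.1 e he
    exact (deleteIso φ hφ).connected_iff.1 h0.2
  refine ⟨hall, fun e he => ?_⟩
  have h1 : ∀ e' ∈ free G, ((trees (G.deleteEdges {e'})).card : ℝ) =
      (trees (G.deleteEdges {e})).card ∧ mu (G.deleteEdges {e'}) = mu (G.deleteEdges {e}) :=
    fun e' he' => by
      obtain ⟨φ, hφ⟩ := ht e' (mem_free.1 he').1 e he
      exact ⟨card_iso (deleteIso φ hφ), mu_iso (deleteIso φ hφ)⟩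
  have h2 := (key hG).trans (cov hG)
  have h3 := key_card hG
  rw [sum_congr rfl fun e' he' => by rw [(h1 e' he').1, (h1 e' he').2], sum_const,
    nsmul_eq_mul] at h2
  rw [sum_congr rfl fun e' he' => (h1 e' he').1, sum_const, nsmul_eq_mul] at h3
  exact ⟨by rw [← h2]; ring, h3⟩

/-- graphs without bridges -/
lemma nobridge {G : SimpleGraph V} (hG : G.Connected)
    (hb : ∀ e ∈ G.edgeSet, (G.deleteEdges {e}).Connected) :
    ((free G).card : ℝ) = G.edgeSet.ncard ∧ var G (bridges G) = 0 ∧
      mean G (nonbridges G) = mu G - 1 ∧ var G (nonbridges G) = var G (order G) := by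
  have hfree : (free G : Set (Sym2 V)) = G.edgeSet := by
    ext e
    rw [Finset.mem_coe, mem_free]
    exact ⟨fun h => h.1, fun h => ⟨h, hb e h⟩⟩
  have h0 : ∀ T : G.Subgraph, bridges G T = 0 := fun T => by
    unfold bridges
    rw [hfree, Set.sdiff_eq_empty.2 T.edgeSet_subset, Set.ncard_empty, Nat.cast_zero]
  have hm : mean G (order G) = 1 + mean G (nonbridges G) := by
    have hN := cardT_pos hG
    unfold mean
    rw [sum_congr rfl fun T hT => (order_eq hT).trans (by rw [h0, add_zero]), sum_add_distrib,
      sum_const, nsmul_eq_mul, mul_one]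
    field_simp
  refine ⟨by rw [← hfree, Set.ncard_coe_finset], ?_, ?_, ?_⟩
  · have h1 : bridges G = fun _ => 0 := funext h0
    rw [h1]
    simp [var, mean]
  · rw [mu_eq, hm]
    ring
  · unfold var
    unfold mean
    congr 1
    refine sum_congr rfl fun T hT => ?_
    have h1 := order_eq hT
    rw [h0, add_zero] at h1
    change (nonbridges G T - mean G (nonbridges G)) ^ 2 = (order G T - mean G (order G)) ^ 2
    rw [h1, hm]
    ring

theorem result (V : Type) [Finite V] (G : SimpleGraph V) (hG : G.Connected) :
    -- (1) the sum over all admissible edges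
    (∑ e ∈ free G, ((trees (G.deleteEdges {e})).card : ℝ) * (mu G - mu (G.deleteEdges {e})) =
      (trees G).card *
        ((var G (order G) + var G (nonbridges G) - var G (bridges G)) / 2)) ∧
    -- (2) the criterion
    (var G (bridges G) < var G (order G) + var G (nonbridges G) → ∃ e ∈ free G,
      (var G (order G) + var G (nonbridges G) - var G (bridges G)) / 2 ≤
        ((free G).card - mean G (nonbridges G)) * (mu G - mu (G.deleteEdges {e})) ∧
      mu (G.deleteEdges {e}) < mu G) ∧
    -- (3) graphs without bridges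
    (¬ G.IsTree → (∀ e ∈ G.edgeSet, (G.deleteEdges {e}).Connected) →
      0 < var G (order G) ∧ ∃ e ∈ G.edgeSet, (G.deleteEdges {e}).Connected ∧
        var G (order G) ≤ (G.edgeSet.ncard + 1 - mu G) * (mu G - mu (G.deleteEdges {e})) ∧
        mu (G.deleteEdges {e}) < mu G) ∧
    -- (4) graphs with few bridges
    (¬ G.IsTree → ∀ k : ℝ, k = {e ∈ G.edgeSet | ¬ (G.deleteEdges {e}).Connected}.ncard →
      (k ^ 2 ≤ 4 * var G (order G) ∨
        mean G (bridges G) * (k - mean G (bridges G)) ≤ var G (order G)) →
      ∃ e ∈ G.edgeSet, (G.deleteEdges {e}).Connected ∧ mu (G.deleteEdges {e}) < mu G) ∧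
    -- (5) edge-transitive graphs: every edge, and the exact value
    (¬ G.IsTree → (∀ e ∈ G.edgeSet, ∀ e' ∈ G.edgeSet, ∃ φ : G ≃g G, e.map φ = e') →
      0 < var G (order G) ∧ ∀ e ∈ G.edgeSet, (G.deleteEdges {e}).Connected ∧
        mu (G.deleteEdges {e}) < mu G ∧
        (G.edgeSet.ncard + 1 - mu G) * (mu G - mu (G.deleteEdges {e})) = var G (order G)) := by
  have hpos : ¬ G.IsTree → 0 < var G (order G) ∧ 0 < var G (nonbridges G) := by
    intro hT
    obtain ⟨e, he⟩ := free_nonempty hG hT
    induction e using Sym2.ind with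
    | h v w =>
      have hvw : G.Adj v w := (mem_free.1 he).1
      have h1 := exists_single G v
      have h2 : G.subgraphOfAdj hvw ∈ trees G := mem_trees.2 (SimpleGraph.IsTree.coe_subgraphOfAdj hvw)
      refine ⟨var_pos hG _ h1 h2 ?_, var_pos hG _ h1 h2 ?_⟩
      · unfold order
        have h3 : (G.singletonSubgraph v).verts.ncard = 1 := by simp
        have h4 : (G.subgraphOfAdj hvw).verts.ncard = 2 := by
          simp [Set.ncard_pair hvw.ne]
        rw [h3, h4]
        norm_num
      · unfold nonbridges
        have h3 : (G.singletonSubgraph v).edgeSet ∩ (free G : Set (Sym2 V)) = ∅ := by simp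
        have h4 : (G.subgraphOfAdj hvw).edgeSet ∩ (free G : Set (Sym2 V)) = {s(v, w)} := by
          rw [SimpleGraph.edgeSet_subgraphOfAdj]
          ext x
          simp only [Set.mem_inter_iff, Set.mem_singleton_iff, Finset.mem_coe]
          exact ⟨fun h => h.1, fun h => ⟨h, h ▸ he⟩⟩
        rw [h3, h4]
        simp
  refine ⟨(key hG).trans (cov hG), criterion hG, fun hT hb => ?_, fun hT k hk hb => ?_,
    fun hT ht => ⟨(hpos hT).1, fun e he => ?_⟩⟩
  · obtain ⟨h4, hv0, h5, hv⟩ := nobridge hG hb
    have h1 := (hpos hT).1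
    obtain ⟨e, he, h2, h3⟩ := criterion hG (by rw [hv0]; linarith [(hpos hT).2])
    refine ⟨h1, e, (mem_free.1 he).1, (mem_free.1 he).2, ?_, h3⟩
    rw [hv, hv0, h4, h5] at h2
    linarith
  · have h1 : {e ∈ G.edgeSet | ¬ (G.deleteEdges {e}).Connected} =
        G.edgeSet \ (free G : Set (Sym2 V)) := by
      ext e
      simp only [Set.mem_sdiff, Finset.mem_coe, mem_free]
      constructor
      · rintro ⟨h2, h3⟩
        exact ⟨h2, fun h4 => h3 h4.2⟩
      · rintro ⟨h2, h3⟩
        exact ⟨h2, fun h4 => h3 ⟨h2, h4⟩⟩
    rw [h1] at hk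
    have h2 := var_bridges_le hG
    rw [← hk] at h2
    have h4 : var G (bridges G) ≤ var G (order G) := by
      rcases hb with hb | hb
      · nlinarith [sq_nonneg (k - 2 * mean G (bridges G))]
      · exact h2.trans hb
    obtain ⟨e, he, _, h3⟩ := criterion hG (by linarith [(hpos hT).2])
    exact ⟨e, (mem_free.1 he).1, (mem_free.1 he).2, h3⟩
  · obtain ⟨hb, h1⟩ := transitive hG hT ht
    obtain ⟨h2, h3⟩ := h1 e he
    obtain ⟨h4, hv0, h5, hv⟩ := nobridge hG hb
    rw [hv, hv0] at h2
    have hN := cardT_pos hG
    have hvar := (hpos hT).1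
    set A : ℝ := (free G).card - mean G (nonbridges G) with hA
    have hA1 : A = G.edgeSet.ncard + 1 - mu G := by
      rw [hA, h4, h5]
      ring
    have h6 : (trees G).card * (A * (mu G - mu (G.deleteEdges {e}))) =
        (trees G).card * var G (order G) := by
      rw [← mul_assoc, ← h3, h2]
      ring
    have h7 := mul_left_cancel₀ hN.ne' h6
    refine ⟨hb e he, ?_, by rw [← hA1]; exact h7⟩
    have h8 : 0 < A := by
      have h9 : 0 < (trees G).card * A := by
        rw [← h3]
        have h10 : (0 : ℝ) < (free G).card := by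
          exact_mod_cast Finset.card_pos.2 (free_nonempty hG hT)
        exact mul_pos h10 (cardT_pos (hb e he))
      exact (mul_pos_iff_of_pos_left hN).1 h9
    have h9 : 0 < A * (mu G - mu (G.deleteEdges {e})) := by
      rw [h7]
      exact hvar
    have h10 := (mul_pos_iff_of_pos_left h8).1 h9
    linarith

end Pool.Agent.Results.MP_d417b4_co.BridgelessDeletionH27
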